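import Pool.Agent.H5.TT.Stm

set_option autoImplicit false

open MeasureTheory

namespace H17.TT

open H5.TT

lemma adm_comb (hPER : S_PER) (lam : ℝ) (σ τ : R3 → ℝ) (hσ : Adm lam σ) (hτ : Adm lam τ)
    (a b : ℝ) (ha : 0 ≤ a) (hb : 0 ≤ b) (hab : a + b = 1) :
    Adm lam (fun x => a * σ x + b * τ x) := by
  obtain ⟨s1, s2, s3, s4, s5⟩ := hσ
  obtain ⟨t1, t2, t3, t4, t5⟩ := hτ
  refine ⟨(s1.const_mul a).add (t1.const_mul b), fun x => ?_, (s3.const_mul a).add (t3.const_mul b),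
    ?_, ?_⟩
  · have := s2 x; have := t2 x; positivity
  · refine Integrable.mono' ((s4.const_mul a).add (t4.const_mul b)) ?_ ?_
    · exact (((s1.const_mul a).add (t1.const_mul b)).pow_const _).aestronglyMeasurable
    · filter_upwards with x
      have h0 : 0 ≤ (a * σ x + b * τ x) ^ (5 / 3 : ℝ) := by
        have := s2 x; have := t2 x; positivity
      rw [Real.norm_of_nonneg h0]
      have h := hPER (σ x) (τ x) 1 1 b (s2 x) (t2 x) one_pos one_pos hb (by linarith)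
      have ha' : 1 - b = a := by linarith
      rw [ha'] at h
      have h11 : a * 1 + b * 1 = (1 : ℝ) := by linarith
      rw [h11, Real.one_rpow, one_mul, one_mul, one_mul] at h
      simpa using h
  · rw [integral_add (s3.const_mul a) (t3.const_mul b), integral_const_mul, integral_const_mul, s5, t5,
      ← add_mul, hab, one_mul]

lemma kin_comb (hPER : S_PER) (lam : ℝ) (σ τ : R3 → ℝ) (hσ : Adm lam σ) (hτ : Adm lam τ)
    (a b r s : ℝ) (ha : 0 ≤ a) (hb : 0 ≤ b) (hab : a + b = 1) (hr : 0 < r) (hs : 0 < s) :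
    ((a * r + b * s) ^ (2 / 3 : ℝ))⁻¹ * kin (fun x => a * σ x + b * τ x) ≤
      a * ((r ^ (2 / 3 : ℝ))⁻¹ * kin σ) + b * ((s ^ (2 / 3 : ℝ))⁻¹ * kin τ) := by
  have hc := adm_comb hPER lam σ τ hσ hτ a b ha hb hab
  have hrs : 0 < a * r + b * s := by
    rcases ha.eq_or_lt with h | h
    · have : b = 1 := by linarith
      rw [← h, this]; simpa using hs
    · have h1 : 0 < a * r := mul_pos h hr
      have h2 : 0 ≤ b * s := mul_nonneg hb hs.le
      linarith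
  have e1 : ((a * r + b * s) ^ (2 / 3 : ℝ))⁻¹ = (a * r + b * s) ^ (-(2 / 3) : ℝ) :=
    (Real.rpow_neg hrs.le _).symm
  have e2 : (r ^ (2 / 3 : ℝ))⁻¹ = r ^ (-(2 / 3) : ℝ) := (Real.rpow_neg hr.le _).symm
  have e3 : (s ^ (2 / 3 : ℝ))⁻¹ = s ^ (-(2 / 3) : ℝ) := (Real.rpow_neg hs.le _).symm
  rw [e1, e2, e3]
  unfold kin
  obtain ⟨s1, s2, s3, s4, s5⟩ := hσ
  obtain ⟨t1, t2, t3, t4, t5⟩ := hτ
  obtain ⟨c1, c2, c3, c4, c5⟩ := hc
  have key : ∫ x, (a * r + b * s) ^ (-(2 / 3) : ℝ) * (a * σ x + b * τ x) ^ (5 / 3 : ℝ) ≤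
      ∫ x, (a * (r ^ (-(2 / 3) : ℝ) * σ x ^ (5 / 3 : ℝ)) + b * (s ^ (-(2 / 3) : ℝ) * τ x ^ (5 / 3 : ℝ))) := by
    apply integral_mono
    · exact c4.const_mul _
    · exact ((s4.const_mul _).const_mul _).add ((t4.const_mul _).const_mul _)
    · intro x
      have h := hPER (σ x) (τ x) r s b (s2 x) (t2 x) hr hs hb (by linarith)
      have ha' : 1 - b = a := by linarith
      rw [ha'] at h
      exact h
  rw [integral_add ((s4.const_mul _).const_mul _) ((t4.const_mul _).const_mul _),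
    integral_const_mul, integral_const_mul, integral_const_mul, integral_const_mul,
    integral_const_mul] at key
  nlinarith [key]

lemma att_comb (hYNG : S_YNG) (k : ℕ) (z : Fin k → ℝ) (R : Fin k → R3) (lam : ℝ) (σ τ : R3 → ℝ)
    (hσ : Adm lam σ) (hτ : Adm lam τ) (a b : ℝ) :
    att z R 1 (fun x => a * σ x + b * τ x) = a * att z R 1 σ + b * att z R 1 τ := by
  obtain ⟨C, _, hC⟩ := hYNG
  unfold att
  rw [Finset.mul_sum, Finset.mul_sum, ← Finset.sum_add_distrib]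
  apply Finset.sum_congr rfl
  intro j _
  have i1 : Integrable (fun x => σ x / ‖x - (1 : ℝ) • R j‖) := (hC lam σ hσ ((1 : ℝ) • R j) 1 one_pos).1
  have i2 : Integrable (fun x => τ x / ‖x - (1 : ℝ) • R j‖) := (hC lam τ hτ ((1 : ℝ) • R j) 1 one_pos).1
  have : ∫ x, (a * σ x + b * τ x) / ‖x - (1 : ℝ) • R j‖ =
      a * (∫ x, σ x / ‖x - (1 : ℝ) • R j‖) + b * (∫ x, τ x / ‖x - (1 : ℝ) • R j‖) := by
    rw [← integral_const_mul, ← integral_const_mul, ← integral_add (i1.const_mul a) (i2.const_mul b)]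
    apply integral_congr_ae
    filter_upwards with x
    ring
  rw [this]; ring

lemma dd_comb (hCOU : S_COU) (hDFI : S_DFI) (lam : ℝ) (σ τ : R3 → ℝ) (hσ : Adm lam σ)
    (hτ : Adm lam τ) (a b : ℝ) (ha : 0 ≤ a) (hb : 0 ≤ b) (hab : a + b = 1) :
    dd (fun x => a * σ x + b * τ x) (fun x => a * σ x + b * τ x) ≤ a * dd σ σ + b * dd τ τ := by
  have i11 := hDFI lam lam σ σ hσ hσ
  have i12 := hDFI lam lam σ τ hσ hτ
  have i21 := hDFI lam lam τ σ hτ hσ
  have i22 := hDFI lam lam τ τ hτ hτ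
  have h1 := hCOU lam lam σ τ hσ hτ
  have h2 := hCOU lam lam τ σ hτ hσ
  have e : dd (fun x => a * σ x + b * τ x) (fun x => a * σ x + b * τ x) =
      (a * a) * dd σ σ + (a * b) * dd σ τ + (b * a) * dd τ σ + (b * b) * dd τ τ := by
    unfold dd
    have hs : ∫ p : R3 × R3, ((a * a) * (σ p.1 * σ p.2 / ‖p.1 - p.2‖) +
        (a * b) * (σ p.1 * τ p.2 / ‖p.1 - p.2‖) + (b * a) * (τ p.1 * σ p.2 / ‖p.1 - p.2‖) +
        (b * b) * (τ p.1 * τ p.2 / ‖p.1 - p.2‖)) =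
        (a * a) * (∫ p : R3 × R3, σ p.1 * σ p.2 / ‖p.1 - p.2‖) +
        (a * b) * (∫ p : R3 × R3, σ p.1 * τ p.2 / ‖p.1 - p.2‖) +
        (b * a) * (∫ p : R3 × R3, τ p.1 * σ p.2 / ‖p.1 - p.2‖) +
        (b * b) * (∫ p : R3 × R3, τ p.1 * τ p.2 / ‖p.1 - p.2‖) := by
      have j12 : Integrable (fun p : R3 × R3 => (a * a) * (σ p.1 * σ p.2 / ‖p.1 - p.2‖) +
        (a * b) * (σ p.1 * τ p.2 / ‖p.1 - p.2‖)) := (i11.const_mul _).add (i12.const_mul _)
      have j123 : Integrable (fun p : R3 × R3 => (a * a) * (σ p.1 * σ p.2 / ‖p.1 - p.2‖) +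
        (a * b) * (σ p.1 * τ p.2 / ‖p.1 - p.2‖) + (b * a) * (τ p.1 * σ p.2 / ‖p.1 - p.2‖)) :=
        j12.add (i21.const_mul _)
      rw [integral_add j123 (i22.const_mul _), integral_add j12 (i21.const_mul _),
        integral_add (i11.const_mul _) (i12.const_mul _), integral_const_mul, integral_const_mul,
        integral_const_mul, integral_const_mul]
    rw [← hs]
    apply integral_congr_ae
    filter_upwards with p
    ring
  rw [e]
  have hab' : 0 ≤ a * b := mul_nonneg ha hb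
  have h3 : (a * b) * (2 * dd σ τ) ≤ (a * b) * (dd σ σ + dd τ τ) := mul_le_mul_of_nonneg_left h1 hab'
  have h4 : (a * b) * (2 * dd τ σ) ≤ (a * b) * (dd τ τ + dd σ σ) := mul_le_mul_of_nonneg_left h2 hab'
  have e5 : a * dd σ σ + b * dd τ τ = (a * a) * dd σ σ + (a * b) * dd σ σ + (a * b) * dd τ τ + (b * b) * dd τ τ := by
    have ha1 : a = 1 - b := by linarith
    rw [ha1]; ring
  rw [e5]
  nlinarith [h3, h4]

theorem t_GCX (hINF : S_INF) (hPER : S_PER) (hCOU : S_COU) (hYNG : S_YNG) (hDFI : S_DFI) : S_GCX := by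
  intro k z R hz lam hlam
  refine ⟨convex_Ioi 0, ?_⟩
  intro r hr s hs a b ha hb hab
  rw [Set.mem_Ioi] at hr hs
  simp only [smul_eq_mul]
  have hrs : 0 < a * r + b * s := by
    rcases ha.eq_or_lt with h | h
    · have : b = 1 := by linarith
      rw [← h, this]; simpa using hs
    · have h1 : 0 < a * r := mul_pos h hr
      have h2 : 0 ≤ b * s := mul_nonneg hb hs.le
      linarith
  obtain ⟨n1, b1, e1⟩ := hINF k z R hz lam (r ^ (2 / 3 : ℝ)) hlam (Real.rpow_pos_of_pos hr _)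
  obtain ⟨n2, b2, e2⟩ := hINF k z R hz lam (s ^ (2 / 3 : ℝ)) hlam (Real.rpow_pos_of_pos hs _)
  obtain ⟨n3, b3, e3⟩ := hINF k z R hz lam ((a * r + b * s) ^ (2 / 3 : ℝ)) hlam
    (Real.rpow_pos_of_pos hrs _)
  rw [e1, e2, e3]
  apply le_of_forall_pos_le_add
  intro ε hε
  obtain ⟨x, ⟨σ, hσ, hx⟩, hxl⟩ := exists_lt_of_csInf_lt n1 (lt_add_of_pos_right _ hε)
  obtain ⟨y, ⟨τ, hτ, hy⟩, hyl⟩ := exists_lt_of_csInf_lt n2 (lt_add_of_pos_right _ hε)
  refine (csInf_le b3 ⟨fun x => a * σ x + b * τ x, adm_comb hPER lam σ τ hσ hτ a b ha hb hab, rfl⟩).trans ?_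
  have k1 := kin_comb hPER lam σ τ hσ hτ a b r s ha hb hab hr hs
  have k2 := att_comb hYNG k z R lam σ τ hσ hτ a b
  have k3 := dd_comb hCOU hDFI lam σ τ hσ hτ a b ha hb hab
  rw [k2]
  have e4 : a * x + b * y ≤ a * sInf {x | ∃ σ, Adm lam σ ∧
      x = (r ^ (2 / 3 : ℝ))⁻¹ * kin σ + (- att z R 1 σ + 1 / 2 * dd σ σ + rep z R)} +
      b * sInf {x | ∃ σ, Adm lam σ ∧
      x = (s ^ (2 / 3 : ℝ))⁻¹ * kin σ + (- att z R 1 σ + 1 / 2 * dd σ σ + rep z R)} + ε := by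
    have q1 := mul_le_mul_of_nonneg_left hxl.le ha
    have q2 := mul_le_mul_of_nonneg_left hyl.le hb
    have q3 : a * ε + b * ε = ε := by rw [← add_mul, hab, one_mul]
    linarith [q1, q2, q3, mul_add a (sInf {x | ∃ σ, Adm lam σ ∧
      x = (r ^ (2 / 3 : ℝ))⁻¹ * kin σ + (- att z R 1 σ + 1 / 2 * dd σ σ + rep z R)}) ε,
      mul_add b (sInf {x | ∃ σ, Adm lam σ ∧
      x = (s ^ (2 / 3 : ℝ))⁻¹ * kin σ + (- att z R 1 σ + 1 / 2 * dd σ σ + rep z R)}) ε]
  refine le_trans ?_ e4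
  rw [hx, hy]
  have q4 : rep z R = a * rep z R + b * rep z R := by rw [← add_mul, hab, one_mul]
  linarith [k1, k3, q4, mul_add a ((r ^ (2 / 3 : ℝ))⁻¹ * kin σ) (- att z R 1 σ + 1 / 2 * dd σ σ + rep z R),
    mul_add b ((s ^ (2 / 3 : ℝ))⁻¹ * kin τ) (- att z R 1 τ + 1 / 2 * dd τ τ + rep z R)]

end H17.TT
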